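import Mathlib
import Pool.Agent.H.MP_96963f_co.Upper

set_option autoImplicit false

namespace Pool.Agent.Results.MP_96963f_co.Order

open Pool.Agent.H.MP_8a557e_co Pool.Agent.H.MP_96963f_co Filter Asymptotics

/-- weighted threshold function -/
def Weighted {n : ℕ} (f : (Fin n → Bool) → Bool) : Prop :=
  ∃ (w : Fin n → ℝ) (q : ℝ), ∀ x, f x = true ↔ q ≤ ∑ i, w i * (if x i then 1 else 0)

/-- `k` true vectors and `k` false vectors with the same sum -/
def KSummable {n : ℕ} (f : (Fin n → Bool) → Bool) (k : ℕ) : Prop :=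
  ∃ X Y : Fin k → Fin n → Bool, (∀ a, f (X a) = true) ∧ (∀ a, f (Y a) = false) ∧
    ∀ i, ∑ a, (if X a i then 1 else 0 : ℤ) = ∑ a, (if Y a i then 1 else 0 : ℤ)

/-- not `k`-summable for any `k` from `1` to `m` -/
def Asummable {n : ℕ} (f : (Fin n → Bool) → Bool) (m : ℕ) : Prop :=
  ∀ k, 1 ≤ k → k ≤ m → ¬ KSummable f k

lemma theta (M : ℕ → ℕ) (h1 : ∀ n, 40 ≤ n → (n / 80 + 1) ^ (n / 80) ≤ M n)
    (h2 : ∀ n, M n ≤ (n + 2) ^ (2 * n + 3)) :
    (fun n => Real.log (M n)) =Θ[atTop] fun n : ℕ => (n : ℝ) * Real.log n := by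
  have hpos : ∀ n, 40 ≤ n → (1 : ℝ) ≤ M n := fun n hn => by
    exact_mod_cast (Nat.one_le_pow _ _ (by omega)).trans (h1 n hn)
  constructor
  · refine IsBigO.of_bound 6 ?_
    filter_upwards [eventually_ge_atTop 40] with n hn
    have hn' : (40 : ℝ) ≤ n := by exact_mod_cast hn
    have hl : 0 ≤ Real.log n := Real.log_nonneg (by linarith)
    rw [Real.norm_of_nonneg (Real.log_nonneg (hpos n hn)), Real.norm_of_nonneg (by positivity)]
    have e1 : Real.log (M n) ≤ Real.log (((n : ℝ) ^ 2) ^ (2 * n + 3)) := by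
      apply Real.log_le_log (by linarith [hpos n hn])
      have : (M n : ℝ) ≤ ((n : ℝ) + 2) ^ (2 * n + 3) := by exact_mod_cast h2 n
      exact this.trans (pow_le_pow_left₀ (by positivity) (by nlinarith) _)
    rw [Real.log_pow, Real.log_pow] at e1
    push_cast at e1
    nlinarith
  · refine IsBigO.of_bound 320 ?_
    filter_upwards [eventually_ge_atTop 6400] with n hn
    have hn' : (6400 : ℝ) ≤ n := by exact_mod_cast hn
    have hl : 0 ≤ Real.log n := Real.log_nonneg (by linarith)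
    rw [Real.norm_of_nonneg (Real.log_nonneg (hpos n (by omega))), Real.norm_of_nonneg (by positivity)]
    obtain ⟨q, hq⟩ : ∃ q, q = n / 80 := ⟨_, rfl⟩
    have e0 := h1 n (by omega)
    rw [← hq] at e0
    have e1 : Real.log (((q : ℝ) + 1) ^ q) ≤ Real.log (M n) := by
      apply Real.log_le_log (by positivity)
      exact_mod_cast e0
    rw [Real.log_pow] at e1
    have e2 : n ≤ 160 * q := by omega
    have e3 : n ≤ (q + 1) ^ 2 := by
      have : n ≤ 80 * (q + 1) := by omega
      have : 80 ≤ q + 1 := by omega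
      nlinarith
    have e4 : Real.log n ≤ 2 * Real.log ((q : ℝ) + 1) := by
      have : Real.log n ≤ Real.log (((q : ℝ) + 1) ^ 2) := by
        apply Real.log_le_log (by linarith)
        exact_mod_cast e3
      rw [Real.log_pow] at this
      exact_mod_cast this
    have e5 : (n : ℝ) ≤ 160 * q := by exact_mod_cast e2
    calc (n : ℝ) * Real.log n ≤ (160 * q) * (2 * Real.log ((q : ℝ) + 1)) :=
          mul_le_mul e5 e4 hl (by positivity)
      _ ≤ 320 * Real.log (M n) := by linarith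

theorem result : ∃ M : ℕ → ℕ,
    (∀ n, IsLeast {m | ∀ f : (Fin n → Bool) → Bool, Monotone f → Asummable f m → Weighted f} (M n)) ∧
    (∀ n, 40 ≤ n → (n / 80 + 1) ^ (n / 80) ≤ M n) ∧
    (∀ n, M n ≤ (n + 2) ^ (2 * n + 3)) ∧
    (fun n => Real.log (M n)) =Θ[atTop] fun n : ℕ => (n : ℝ) * Real.log n := by
  classical
  have hex : ∀ n, ∀ f : (Fin n → Bool) → Bool, Monotone f → Asummable f ((n + 2) ^ (2 * n + 3)) →
      Weighted f := by
    intro n f _ h
    by_contra hw
    obtain ⟨j, h1, h2, h3⟩ := upper f hw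
    exact h j h1 h2 h3
  let M : ℕ → ℕ := fun n => Nat.find (p := fun m => ∀ f : (Fin n → Bool) → Bool, Monotone f →
    Asummable f m → Weighted f) ⟨_, hex n⟩
  have hM : ∀ n, IsLeast {m | ∀ f : (Fin n → Bool) → Bool, Monotone f → Asummable f m →
      Weighted f} (M n) := fun n => Nat.isLeast_find _
  have h1 : ∀ n, 40 ≤ n → (n / 80 + 1) ^ (n / 80) ≤ M n := by
    intro n hn
    have hq : n / 40 ≠ 0 := by omega
    have a1 := Nat.pow_log_le_self 2 hq
    have a2 := Nat.lt_pow_succ_log_self (show 1 < 2 by norm_num) (n / 40)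
    rw [pow_succ] at a2
    obtain ⟨g, g1, g2, g3⟩ := lower (Nat.log 2 (n / 40)) n (by omega)
    generalize 2 ^ Nat.log 2 (n / 40) = m at a1 a2 g3
    have a3 : (n / 80 + 1) ^ (n / 80) ≤ m ^ (m - 1) :=
      (Nat.pow_le_pow_left (by omega) _).trans (Nat.pow_le_pow_right (by omega) (by omega))
    by_contra h
    exact g2 ((hM n).1 g g1 fun k hk hk' hs => by have := g3 k hk hs; omega)
  have h2 : ∀ n, M n ≤ (n + 2) ^ (2 * n + 3) := fun n => (hM n).2 (hex n)
  exact ⟨M, hM, h1, h2, theta M h1 h2⟩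

end Pool.Agent.Results.MP_96963f_co.Order
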